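import Mathlib
import Pool.Agent.N704.DB.D

open Finset

namespace Pool.Agent.Results.MP_a9eae2_co.BalancedDeBruijn

/-- A cyclic sequence of length `n` over `A` is a function on `ZMod n` (with `0 < n`). This says
that every word `u` of length `l` over `A` occurs as a substring at no more than `k` starting
positions `i`. -/
def IsGenDeBruijn {A : Type*} (n l k : ℕ) (a : ZMod n → A) : Prop :=
  ∀ u : Fin l → A, Nat.card {i : ZMod n // ∀ j : Fin l, a (i + ((j : ℕ) : ZMod n)) = u j} ≤ k

/-- Every letter of `A` occurs equally often in the cyclic sequence. -/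
def IsBalanced {A : Type*} (n : ℕ) (a : ZMod n → A) : Prop :=
  ∀ x y : A, Nat.card {i : ZMod n // a i = x} = Nat.card {i : ZMod n // a i = y}

/-- For every finite alphabet with at least three letters and all positive `n, l, k`, a balanced
generalized de Bruijn sequence with parameters `(n, l, k)` exists iff the alphabet size divides
`n` and `k ≥ n / m ^ l`. -/
theorem result : ∀ (A : Type*) [Finite A], 3 ≤ Nat.card A → ∀ n l k : ℕ, 0 < n → 0 < l → 0 < k →
    ((∃ a : ZMod n → A, IsGenDeBruijn n l k a ∧ IsBalanced n a) ↔
      (Nat.card A ∣ n ∧ (n : ℚ) / (Nat.card A : ℚ) ^ l ≤ k)) := by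
  classical
  intro A _ hA n l k hn hl hk
  have := Fintype.ofFinite A
  have : NeZero n := ⟨by omega⟩
  set m := Nat.card A with hm
  have : NeZero m := ⟨by omega⟩
  have hmA : Fintype.card A = m := by rw [hm, Nat.card_eq_fintype_card]
  have hmpos : (0 : ℚ) < (m : ℚ) ^ l := by
    have : (0 : ℚ) < m := by exact_mod_cast (by omega : 0 < m)
    positivity
  rw [div_le_iff₀ hmpos]
  have hcast : ((n : ℚ) ≤ (k : ℚ) * (m : ℚ) ^ l) ↔ n ≤ k * m ^ l := by exact_mod_cast Iff.rfl
  rw [hcast]
  constructor
  · rintro ⟨a, ha, hb⟩
    constructor
    · -- divisibility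
      obtain ⟨x0⟩ : Nonempty A := Fintype.card_pos_iff.1 (by omega)
      have h1 : ∑ x : A, (univ.filter (fun i : ZMod n => a i = x)).card = n := by
        have h0 := Finset.card_eq_sum_card_fiberwise (s := (univ : Finset (ZMod n)))
          (t := (univ : Finset A)) (f := a) (by intro x _; simp)
        rw [card_univ, ZMod.card] at h0
        exact h0.symm
      have h2 : ∀ x : A, (univ.filter (fun i : ZMod n => a i = x)).card =
          (univ.filter (fun i : ZMod n => a i = x0)).card := by
        intro x
        have := hb x x0
        rwa [Nat.card_eq_fintype_card, Nat.card_eq_fintype_card, Fintype.card_subtype,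
          Fintype.card_subtype] at this
      simp only [h2, sum_const, card_univ, hmA, smul_eq_mul] at h1
      exact ⟨_, h1.symm⟩
    · have h1 : ∑ u : Fin l → A,
          (univ.filter (fun i : ZMod n => (fun j : Fin l => a (i + ((j : ℕ) : ZMod n))) = u)).card
            = n := by
        have h0 := Finset.card_eq_sum_card_fiberwise (s := (univ : Finset (ZMod n)))
          (t := (univ : Finset (Fin l → A))) (f := fun i => fun j : Fin l => a (i + ((j : ℕ) : ZMod n)))
          (by intro x _; simp)
        rw [card_univ, ZMod.card] at h0
        exact h0.symm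
      have h2 : ∀ u : Fin l → A,
          (univ.filter (fun i : ZMod n => (fun j : Fin l => a (i + ((j : ℕ) : ZMod n))) = u)).card
            ≤ k := by
        intro u
        have := ha u
        rw [Nat.card_eq_fintype_card, Fintype.card_subtype] at this
        refine le_trans (le_of_eq ?_) this
        congr 1
        ext i
        simp [funext_iff]
      calc n = _ := h1.symm
        _ ≤ ∑ u : Fin l → A, k := Finset.sum_le_sum fun u _ => h2 u
        _ = k * m ^ l := by
          simp [hmA, mul_comm]
  · rintro ⟨⟨n', hn'⟩, hkn⟩
    have hn0 : 0 < n' := by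
      rcases Nat.eq_zero_or_pos n' with h | h
      · rw [h, mul_zero] at hn'; omega
      · exact h
    obtain ⟨c, h1, h2, h3⟩ := Pool.Agent.N704.DB.exists_periodic (m := m) hA hn0 hl
      (by rw [← hn']; exact hkn)
    rw [← hn'] at h1 h2 h3
    have e : ZMod m ≃ A := Fintype.equivOfCardEq (by rw [hmA, ZMod.card])
    refine ⟨fun i => e (c i.val), ?_, ?_⟩
    · intro u
      refine le_trans ?_ (h3 (fun j => e.symm (u j)))
      rw [Nat.card_eq_fintype_card, Fintype.card_subtype]
      apply Finset.card_le_card_of_injOn ZMod.val
      · intro i hi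
        simp only [coe_filter, mem_univ, true_and, Set.mem_ofPred_eq] at hi
        simp only [coe_filter, mem_range, Set.mem_ofPred_eq]
        refine ⟨ZMod.val_lt i, fun j => ?_⟩
        rw [← hi j, Equiv.symm_apply_apply]
        apply Pool.Agent.N704.DB.per_congr h1
        rw [ZMod.val_add, ZMod.val_natCast]
        have : (i.val + (j : ℕ) % n) ≡ i.val + j [MOD n] :=
          Nat.ModEq.add_left _ (Nat.mod_modEq _ _)
        exact (((Nat.mod_modEq _ n).trans this)).symm
      · intro i _ j _ hij
        exact ZMod.val_injective n hij
    · have key : ∀ x : A, Nat.card {i : ZMod n // e (c i.val) = x} = n' := by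
        intro x
        rw [← h2 (e.symm x), Nat.card_eq_fintype_card, Fintype.card_subtype]
        apply Finset.card_nbij' ZMod.val (fun i : ℕ => (i : ZMod n))
        · intro i hi
          simp only [coe_filter, mem_univ, true_and, Set.mem_ofPred_eq] at hi
          simp only [coe_filter, mem_range, Set.mem_ofPred_eq]
          exact ⟨ZMod.val_lt i, by rw [← hi, Equiv.symm_apply_apply]⟩
        · intro i hi
          simp only [coe_filter, mem_range, Set.mem_ofPred_eq] at hi
          simp only [coe_filter, mem_univ, true_and, Set.mem_ofPred_eq]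
          rw [ZMod.val_natCast, Nat.mod_eq_of_lt hi.1, hi.2, Equiv.apply_symm_apply]
        · intro i _
          simp
        · intro i hi
          simp only [coe_filter, mem_range, Set.mem_ofPred_eq] at hi
          rw [ZMod.val_natCast, Nat.mod_eq_of_lt hi.1]
      intro x y
      rw [key x, key y]

end Pool.Agent.Results.MP_a9eae2_co.BalancedDeBruijn
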